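import Pool.Agent.Helper382_Nodal.Away

/-!
MP_602153_ag: regular models of almost all hypersurfaces away from a fixed finite set of primes.

For every degree `d ≥ 2`, every dimension and every `ε > 0` there is a positive integer `M` with the
following property. Order the integral forms of degree `d` by the largest absolute value of the
coefficients. A proportion of at least `1 - ε` of them defines over every number field `K` a smooth
hypersurface which has a regular proper flat model over the ring of integers of `K` with `M`
inverted, `M` being the same for all these forms and all fields.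

The proof: at all primes `p > z`, `z = z(n, d, ε)`, all the singular points of the reduction modulo `p` of such a
form have an invertible matrix of second derivatives (a sieve for a condition of codimension two), and
such singular points of a fibre over a Dedekind ring can be resolved, whether the total space is
regular there or not. `M` is `z!`.
-/

set_option autoImplicit false

open AlgebraicGeometry CategoryTheory CategoryTheory.Limits MvPolynomial

open scoped NumberField

namespace Pool.Agent.Results.MP_602153_ag.NodalReductions

/-- The partial derivatives of `G` have no common zero (over an algebraic closure) but the origin: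
every variable has a power in the ideal they generate. -/
def IsSmooth {K : Type} [Field K] {m : ℕ} (G : MvPolynomial (Fin m) K) : Prop :=
  ∀ i, X i ∈ (Ideal.span (Set.range fun j => pderiv j G)).radical

/-- The dimension of the local ring `A` equals the dimension of its cotangent space. -/
def HasRegularDimension (A : Type) [CommRing A] [IsLocalRing A] : Prop :=
  ringKrullDim A = (((Module.finrank (IsLocalRing.ResidueField A)
    (IsLocalRing.CotangentSpace A) : ℕ) : ℕ∞) : WithBot ℕ∞)

/-- The morphism `g` from `Y` is a regular proper flat model over the ring `R` of the scheme `V` over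
its field of fractions `K`, with the structure morphism `f`. -/
def IsRegularProperFlatModelOver {R K : Type} [CommRing R] [Field K] [Algebra R K]
    {V Y : Scheme.{0}} (f : V ⟶ Spec (CommRingCat.of K)) (g : Y ⟶ Spec (CommRingCat.of R)) :
    Prop :=
  IsProper g ∧ Flat g ∧ (∀ y : Y, HasRegularDimension (Y.presheaf.stalk y)) ∧
    ∃ e : pullback g (Spec.map (CommRingCat.ofHom (algebraMap R K))) ≅ V,
      e.hom ≫ f = pullback.snd g (Spec.map (CommRingCat.ofHom (algebraMap R K)))

/-- The structure morphism of `Proj ℬ` over `K`. -/
noncomputable def structureMorphism {K B : Type} [Field K] [CommRing B] [Algebra K B]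
    (ℬ : ℕ → Submodule K B) [GradedAlgebra ℬ] : Proj ℬ ⟶ Spec (CommRingCat.of K) :=
  Proj.toSpecZero ℬ ≫ Spec.map (CommRingCat.ofHom (algebraMap K (ℬ 0)))

/-- Every scheme `V` over `K` isomorphic over `K` to the hypersurface `Proj (K[X] / (G))` has a
regular proper flat model over the ring `R`. -/
def HypersurfaceHasModelOver (R : Type) {K : Type} [CommRing R] [Field K] [Algebra R K] {m : ℕ}
    (G : MvPolynomial (Fin m) K) : Prop :=
  ∀ (B : Type) [CommRing B] [Algebra K B]
    (π : MvPolynomial (Fin m) K →ₐ[K] B), Function.Surjective π →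
    RingHom.ker π = Ideal.span {G} →
  ∀ (ℬ : ℕ → Submodule K B) [GradedAlgebra ℬ],
    (∀ d, ℬ d = (homogeneousSubmodule (Fin m) K d).map π.toLinearMap) →
  ∀ (V : Scheme.{0}) (f : V ⟶ Spec (CommRingCat.of K)) (i : V ≅ Proj ℬ),
    i.hom ≫ structureMorphism ℬ = f →
  ∃ (Y : Scheme.{0}) (g : Y ⟶ Spec (CommRingCat.of R)), IsRegularProperFlatModelOver f g

/-- The hypersurface has a regular proper flat model over the ring of integers with `M` inverted. -/
def HypersurfaceHasModelAway (M : ℕ) {K : Type} [Field K] {m : ℕ} (G : MvPolynomial (Fin m) K) :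
    Prop :=
  ∀ (R : Type) [CommRing R] [Algebra (𝓞 K) R] [IsLocalization.Away (M : 𝓞 K) R] [Algebra R K]
    [IsScalarTower (𝓞 K) R K], HypersurfaceHasModelOver R G

/-- The integral forms of degree `d` in `m` variables with coefficients of absolute value at most
`H`. -/
def forms (m d H : ℕ) : Set (MvPolynomial (Fin m) ℤ) :=
  {F | F.IsHomogeneous d ∧ ∀ e, |F.coeff e| ≤ (H : ℤ)}

/-- The form over `K` given by a form with integral coefficients. -/
noncomputable def formOver (K : Type) [Field K] {m : ℕ} (F : MvPolynomial (Fin m) ℤ) :
    MvPolynomial (Fin m) K :=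
  map (algebraMap ℤ K) F

theorem result (n d : ℕ) (hd : 2 ≤ d) (ε : ℝ) (hε : 0 < ε) :
    ∃ M : ℕ, M ≠ 0 ∧ ∃ H₀ : ℕ, ∀ H : ℕ, H₀ ≤ H →
      (forms (n + 3) d H).Finite ∧ (1 - ε) * (forms (n + 3) d H).ncard ≤
        {F | F ∈ forms (n + 3) d H ∧ ∀ (K : Type) [Field K] [NumberField K],
          IsSmooth (formOver K F) ∧ HypersurfaceHasModelAway M (formOver K F)}.ncard := by
  obtain ⟨z, H₀, h⟩ := Pool.Agent.Helper382_Nodal.density_large_forms (n + 1) d (by omega) ε hε
  refine ⟨z.factorial, z.factorial_ne_zero, H₀, fun H hH =>
    ⟨Pool.Agent.Helper382_Nodal.finite_forms (n + 1) d H, (h H hH).trans ?_⟩⟩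
  refine Nat.cast_le.2 (Set.ncard_le_ncard ?_
    ((Pool.Agent.Helper382_Nodal.finite_forms (n + 1) d H).subset fun _ hF => hF.1))
  rintro F ⟨hF, hnod, hsm⟩
  refine ⟨hF, fun K _ _ => ⟨hsm K, ?_⟩⟩
  intro R _ _ _ _ _ B _ _ π hπ hker ℬ _ hℬ V f i hi
  refine Pool.Agent.Helper382_Nodal.model_away (n := n + 1) (by omega) F d hd hF.1 (hsm K)
    z.factorial z.factorial_ne_zero ?_ R π hπ hker ℬ hℬ f i hi
  intro p hp hpz
  refine hnod p hp ?_
  by_contra hle
  exact hpz ((hp.dvd_factorial).2 (not_lt.1 hle))

end Pool.Agent.Results.MP_602153_ag.NodalReductions
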